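import Pool.Agent.P8H51.MSTD.Cert

/-!
# A negative answer to the cleaving question

There is an MSTD point of `P_5` which no MSTD path joins to a cleaved image of an MSTD point
of `P_4`, although `P_4` contains MSTD points.
-/

namespace Pool.Agent.Results.MP_9a6c6e_co.IsolatedMSTDComponent

open MeasureTheory Set
open scoped Pointwise

/-- The parameter space `P_n` inside `ℝ^{2n}`: the vectors `v = (a₁, b₁, …, a_n, b_n)` whose
entries satisfy `a₁ ≤ b₁ ≤ a₂ ≤ … ≤ b_n`. -/
def P (n : ℕ) : Set (Fin (2 * n) → ℝ) := {v | Monotone v}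

/-- The left end `a_i` (with `i` counted from `0`). -/
def left {n : ℕ} (v : Fin (2 * n) → ℝ) (i : Fin n) : ℝ := v ⟨2 * (i : ℕ), by omega⟩

/-- The right end `b_i` (with `i` counted from `0`). -/
def right {n : ℕ} (v : Fin (2 * n) → ℝ) (i : Fin n) : ℝ := v ⟨2 * (i : ℕ) + 1, by omega⟩

/-- The set `J_v`, the union of the intervals `[a_i, b_i]`. -/
def J {n : ℕ} (v : Fin (2 * n) → ℝ) : Set ℝ := ⋃ i : Fin n, Icc (left v i) (right v i)

/-- `v` is MSTD: the Lebesgue measure of `J_v + J_v` exceeds that of `J_v - J_v`. -/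
def IsMSTD {n : ℕ} (v : Fin (2 * n) → ℝ) : Prop :=
  volume (J v - J v) < volume (J v + J v)

/-- An MSTD path in `P_m`: a continuous map from `[0,1]` to `P_m` all of whose values are MSTD. -/
def IsMSTDPath (m : ℕ) (γ : unitInterval → (Fin (2 * m) → ℝ)) : Prop :=
  Continuous γ ∧ ∀ t, γ t ∈ P m ∧ IsMSTD (γ t)

/-- The point `(a₁, b₁, …, a_i, p, p, b_i, …, a_n, b_n)` of `ℝ^{2(n+1)}`. -/
def cleave {n : ℕ} (v : Fin (2 * n) → ℝ) (i : Fin n) (p : ℝ) : Fin (2 * (n + 1)) → ℝ :=
  fun k => if h : (k : ℕ) ≤ 2 * (i : ℕ) then v ⟨k, by omega⟩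
    else if (k : ℕ) ≤ 2 * (i : ℕ) + 2 then p else v ⟨(k : ℕ) - 2, by omega⟩

/-- `v'` is a cleaved image of an MSTD point of `P_n`. -/
def IsCleavedImage (n : ℕ) (v' : Fin (2 * (n + 1)) → ℝ) : Prop :=
  ∃ v ∈ P n, IsMSTD v ∧ ∃ (i : Fin n) (p : ℝ), left v i < p ∧ p < right v i ∧ v' = cleave v i p

/-! ### Auxiliary facts -/

open Pool.Agent.P8H51.MSTD

def dl (v : Fin 10 → ℝ) : List ℝ :=
  [v 1 - v 0, v 2 - v 1, v 3 - v 2, v 4 - v 3, v 5 - v 4, v 6 - v 5, v 7 - v 6, v 8 - v 7,
    v 9 - v 8]

theorem continuous_ev {X : Type} [TopologicalSpace X] (k : Form) (L : List (X → ℝ))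
    (hL : ∀ f ∈ L, Continuous f) : Continuous (fun v => ev k (L.map (fun f => f v))) := by
  induction k generalizing L with
  | nil => simp only [ev]; exact continuous_const
  | cons c k ih =>
    cases L with
    | nil => simp only [List.map_nil, ev]; exact continuous_const
    | cons f L =>
      simp only [List.map_cons, ev]
      exact (continuous_const.mul (hL f (by simp))).add
        (ih L (fun g hg => hL g (by simp [hg])))

theorem continuous_ev_dl (k : Form) : Continuous (fun v : Fin 10 → ℝ => ev k (dl v)) := by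
  have := continuous_ev (X := Fin 10 → ℝ) k
    [fun v => v 1 - v 0, fun v => v 2 - v 1, fun v => v 3 - v 2, fun v => v 4 - v 3,
      fun v => v 5 - v 4, fun v => v 6 - v 5, fun v => v 7 - v 6, fun v => v 8 - v 7,
      fun v => v 9 - v 8] (by
      intro f hf
      simp only [List.mem_cons, List.not_mem_nil, or_false] at hf
      rcases hf with rfl | rfl | rfl | rfl | rfl | rfl | rfl | rfl | rfl <;> fun_prop)
  exact this

theorem J_eq (v : Fin (2 * 5) → ℝ) : J v = JS (v 0) (dl v) := by
  ext y
  simp only [J, JS, mem_iUnion, mem_Icc, mem_ofPred_eq, left, right]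
  constructor
  · rintro ⟨i, h⟩
    refine ⟨i, i.2, ?_⟩
    fin_cases i
    all_goals
      simp [A, B, ev, dl, List.replicate] at h ⊢
      constructor <;> linarith [h.1, h.2]
  · rintro ⟨i, hi, h⟩
    refine ⟨⟨i, hi⟩, ?_⟩
    interval_cases i
    all_goals
      simp [A, B, ev, dl, List.replicate] at h ⊢
      constructor <;> linarith [h.1, h.2]

theorem dl_nonneg {v : Fin 10 → ℝ} (hv : Monotone v) : ∀ a ∈ dl v, (0 : ℝ) ≤ a := by
  intro a ha
  simp only [dl, List.mem_cons, List.not_mem_nil, or_false] at ha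
  rcases ha with rfl | rfl | rfl | rfl | rfl | rfl | rfl | rfl | rfl <;>
    exact sub_nonneg.2 (hv (by decide))

theorem gap_pos {v : Fin (2 * 5) → ℝ} (h : IsMSTD v) : 0 < gap (v 0) (dl v) := by
  rw [IsMSTD, J_eq] at h
  have hc := isCompact_JS (v 0) (dl v)
  have hfin : volume (JS (v 0) (dl v) + JS (v 0) (dl v)) ≠ ⊤ :=
    (hc.add hc).measure_lt_top.ne
  have := (ENNReal.toReal_lt_toReal (h.trans_le le_top).ne hfin).2 h
  rw [gap]
  exact sub_pos.2 this

/-- the isolated MSTD point: `[0,1] ∪ [2,4] ∪ [9,10] ∪ [11,13] ∪ {15}` -/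
def w5 : Fin (2 * 5) → ℝ := ![0, 1, 2, 4, 9, 10, 11, 13, 15, 15]

/-- an MSTD point of `P_4`: `{0} ∪ [3,7] ∪ {8} ∪ [9,10]` -/
def u4 : Fin (2 * 4) → ℝ := ![0, 0, 3, 7, 8, 8, 9, 10]

theorem w5_mem : w5 ∈ P 5 := by
  intro i j hij
  fin_cases i <;> fin_cases j <;> simp [w5] at hij ⊢ <;> norm_num

theorem u4_mem : u4 ∈ P 4 := by
  intro i j hij
  fin_cases i <;> fin_cases j <;> simp [u4] at hij ⊢ <;> norm_num

theorem mem_J_u4 (y : ℝ) : y ∈ J u4 ↔ (0 ≤ y ∧ y ≤ 0) ∨ (3 ≤ y ∧ y ≤ 7) ∨ (8 ≤ y ∧ y ≤ 8) ∨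
    (9 ≤ y ∧ y ≤ 10) := by
  simp [J, left, right, u4, Fin.exists_fin_succ]

theorem mem_J_w5 (y : ℝ) : y ∈ J w5 ↔ (0 ≤ y ∧ y ≤ 1) ∨ (2 ≤ y ∧ y ≤ 4) ∨ (9 ≤ y ∧ y ≤ 10) ∨
    (11 ≤ y ∧ y ≤ 13) ∨ (15 ≤ y ∧ y ≤ 15) := by
  simp [J, left, right, w5, Fin.exists_fin_succ]

theorem u4_mstd : IsMSTD u4 := by
  have hD : volume (J u4 - J u4) ≤ ENNReal.ofReal 16 := by
    have h := volume_cover (S := J u4 - J u4)
      [(-10, -9), (-8, -8), (-7, 7), (8, 8), (9, 10)] (by
        intro I hI
        simp only [List.mem_cons, List.not_mem_nil, or_false] at hI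
        rcases hI with rfl | rfl | rfl | rfl | rfl <;> norm_num) (by
        rintro s ⟨y, hy, z, hz, rfl⟩
        rw [mem_J_u4] at hy hz
        simp only [List.mem_cons, List.not_mem_nil, or_false, exists_eq_or_imp, exists_eq_left]
        rcases hy with hy | hy | hy | hy <;> rcases hz with hz | hz | hz | hz
        · right; right; left; constructor <;> linarith [hy.1, hy.2, hz.1, hz.2]
        · right; right; left; constructor <;> linarith [hy.1, hy.2, hz.1, hz.2]
        · right; left; constructor <;> linarith [hy.1, hy.2, hz.1, hz.2]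
        · left; constructor <;> linarith [hy.1, hy.2, hz.1, hz.2]
        · right; right; left; constructor <;> linarith [hy.1, hy.2, hz.1, hz.2]
        · right; right; left; constructor <;> linarith [hy.1, hy.2, hz.1, hz.2]
        · right; right; left; constructor <;> linarith [hy.1, hy.2, hz.1, hz.2]
        · right; right; left; constructor <;> linarith [hy.1, hy.2, hz.1, hz.2]
        · right; right; right; left; constructor <;> linarith [hy.1, hy.2, hz.1, hz.2]
        · right; right; left; constructor <;> linarith [hy.1, hy.2, hz.1, hz.2]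
        · right; right; left; constructor <;> linarith [hy.1, hy.2, hz.1, hz.2]
        · right; right; left; constructor <;> linarith [hy.1, hy.2, hz.1, hz.2]
        · right; right; right; right; constructor <;> linarith [hy.1, hy.2, hz.1, hz.2]
        · right; right; left; constructor <;> linarith [hy.1, hy.2, hz.1, hz.2]
        · right; right; left; constructor <;> linarith [hy.1, hy.2, hz.1, hz.2]
        · right; right; left; constructor <;> linarith [hy.1, hy.2, hz.1, hz.2])
    refine h.2.trans (le_of_eq ?_)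
    norm_num [rsum]
  have hS : ENNReal.ofReal 17 ≤ volume (J u4 + J u4) := by
    have h : Icc (3 : ℝ) 20 ⊆ J u4 + J u4 := by
      have mk : ∀ y z s : ℝ, y ∈ J u4 → z ∈ J u4 → y + z = s → s ∈ J u4 + J u4 :=
        fun y z s hy hz h => ⟨y, hy, z, hz, h⟩
      intro s hs
      obtain ⟨h1, h2⟩ := hs
      rcases le_or_gt s 7 with h | h
      · refine mk 0 s s ?_ ?_ (by ring) <;> rw [mem_J_u4]
        · left; norm_num
        · right; left; constructor <;> linarith
      rcases le_or_gt s 14 with h' | h'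
      · refine mk (s / 2) (s / 2) s ?_ ?_ (by ring) <;> rw [mem_J_u4] <;>
          (right; left; constructor <;> linarith)
      rcases le_or_gt s 15 with h'' | h''
      · refine mk 8 (s - 8) s ?_ ?_ (by ring) <;> rw [mem_J_u4]
        · right; right; left; norm_num
        · right; left; constructor <;> linarith
      rcases le_or_gt s 17 with h3 | h3
      · refine mk 10 (s - 10) s ?_ ?_ (by ring) <;> rw [mem_J_u4]
        · right; right; right; norm_num
        · right; left; constructor <;> linarith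
      rcases le_or_gt s 18 with h4 | h4
      · refine mk 8 (s - 8) s ?_ ?_ (by ring) <;> rw [mem_J_u4]
        · right; right; left; norm_num
        · right; right; right; constructor <;> linarith
      · refine mk (s / 2) (s / 2) s ?_ ?_ (by ring) <;> rw [mem_J_u4] <;>
          (right; right; right; constructor <;> linarith)
    calc ENNReal.ofReal 17 = volume (Icc (3 : ℝ) 20) := by rw [Real.volume_Icc]; norm_num
      _ ≤ _ := measure_mono h
  calc volume (J u4 - J u4) ≤ ENNReal.ofReal 16 := hD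
    _ < ENNReal.ofReal 17 := by rw [ENNReal.ofReal_lt_ofReal_iff] <;> norm_num
    _ ≤ _ := hS

theorem w5_mstd : IsMSTD w5 := by
  have hD : volume (J w5 - J w5) ≤ ENNReal.ofReal 26 := by
    have h := volume_cover (S := J w5 - J w5)
      [(-15, -14), (-13, -5), (-4, 4), (5, 13), (14, 15)] (by
        intro I hI
        simp only [List.mem_cons, List.not_mem_nil, or_false] at hI
        rcases hI with rfl | rfl | rfl | rfl | rfl <;> norm_num) (by
        rintro s ⟨y, hy, z, hz, rfl⟩
        rw [mem_J_w5] at hy hz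
        simp only [List.mem_cons, List.not_mem_nil, or_false, exists_eq_or_imp, exists_eq_left]
        rcases hy with hy | hy | hy | hy | hy <;> rcases hz with hz | hz | hz | hz | hz
        all_goals
          first
          | (left; constructor <;> linarith [hy.1, hy.2, hz.1, hz.2])
          | (right; left; constructor <;> linarith [hy.1, hy.2, hz.1, hz.2])
          | (right; right; left; constructor <;> linarith [hy.1, hy.2, hz.1, hz.2])
          | (right; right; right; left; constructor <;> linarith [hy.1, hy.2, hz.1, hz.2])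
          | (right; right; right; right; constructor <;> linarith [hy.1, hy.2, hz.1, hz.2]))
    refine h.2.trans (le_of_eq ?_)
    norm_num [rsum]
  have hS : ENNReal.ofReal 27 ≤ volume (J w5 + J w5) := by
    have mk : ∀ y z s : ℝ, y ∈ J w5 → z ∈ J w5 → y + z = s → s ∈ J w5 + J w5 :=
      fun y z s hy hz h => ⟨y, hy, z, hz, h⟩
    have c1 : ∀ y : ℝ, 0 ≤ y → y ≤ 1 → y ∈ J w5 := fun y h1 h2 => by
      rw [mem_J_w5]; exact Or.inl ⟨h1, h2⟩
    have c2 : ∀ y : ℝ, 2 ≤ y → y ≤ 4 → y ∈ J w5 := fun y h1 h2 => by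
      rw [mem_J_w5]; exact Or.inr (Or.inl ⟨h1, h2⟩)
    have c3 : ∀ y : ℝ, 9 ≤ y → y ≤ 10 → y ∈ J w5 := fun y h1 h2 => by
      rw [mem_J_w5]; exact Or.inr (Or.inr (Or.inl ⟨h1, h2⟩))
    have c4 : ∀ y : ℝ, 11 ≤ y → y ≤ 13 → y ∈ J w5 := fun y h1 h2 => by
      rw [mem_J_w5]; exact Or.inr (Or.inr (Or.inr (Or.inl ⟨h1, h2⟩)))
    have c5 : (15 : ℝ) ∈ J w5 := by
      rw [mem_J_w5]; exact Or.inr (Or.inr (Or.inr (Or.inr ⟨le_rfl, le_rfl⟩)))
    have h1 : Icc (0 : ℝ) 8 ⊆ J w5 + J w5 := by
      rintro s ⟨h1, h2⟩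
      rcases le_or_gt s 2 with h | h
      · exact mk (s / 2) (s / 2) s (c1 _ (by linarith) (by linarith))
          (c1 _ (by linarith) (by linarith)) (by ring)
      rcases le_or_gt s 4 with h' | h'
      · exact mk 0 s s (c1 _ (by linarith) (by linarith)) (c2 _ (by linarith) (by linarith))
          (by ring)
      · exact mk (s / 2) (s / 2) s (c2 _ (by linarith) (by linarith))
          (c2 _ (by linarith) (by linarith)) (by ring)
    have h2 : Icc (9 : ℝ) 28 ⊆ J w5 + J w5 := by
      rintro s ⟨h1, h2⟩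
      rcases le_or_gt s 10 with h | h
      · exact mk 0 s s (c1 _ (by linarith) (by linarith)) (c3 _ (by linarith) (by linarith))
          (by ring)
      rcases le_or_gt s 11 with h3 | h3
      · exact mk 1 (s - 1) s (c1 _ (by linarith) (by linarith))
          (c3 _ (by linarith) (by linarith)) (by ring)
      rcases le_or_gt s 13 with h4 | h4
      · exact mk 0 s s (c1 _ (by linarith) (by linarith)) (c4 _ (by linarith) (by linarith))
          (by ring)
      rcases le_or_gt s 15 with h5 | h5
      · exact mk 2 (s - 2) s (c2 _ (by linarith) (by linarith))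
          (c4 _ (by linarith) (by linarith)) (by ring)
      rcases le_or_gt s 17 with h6 | h6
      · exact mk 4 (s - 4) s (c2 _ (by linarith) (by linarith))
          (c4 _ (by linarith) (by linarith)) (by ring)
      rcases le_or_gt s 19 with h7 | h7
      · exact mk (s - 15) 15 s (c2 _ (by linarith) (by linarith)) c5 (by ring)
      rcases le_or_gt s 20 with h8 | h8
      · exact mk (s / 2) (s / 2) s (c3 _ (by linarith) (by linarith))
          (c3 _ (by linarith) (by linarith)) (by ring)
      rcases le_or_gt s 22 with h9 | h9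
      · exact mk 9 (s - 9) s (c3 _ (by linarith) (by linarith))
          (c4 _ (by linarith) (by linarith)) (by ring)
      rcases le_or_gt s 26 with h10 | h10
      · exact mk (s / 2) (s / 2) s (c4 _ (by linarith) (by linarith))
          (c4 _ (by linarith) (by linarith)) (by ring)
      · exact mk (s - 15) 15 s (c4 _ (by linarith) (by linarith)) c5 (by ring)
    have h := volume_pieces (D := J w5 + J w5) [(0, 8), (9, 28)] (-1) (by
      norm_num [Sorted']) (by
      intro I hI
      simp only [List.mem_cons, List.not_mem_nil, or_false] at hI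
      rcases hI with rfl | rfl
      · exact h1
      · exact h2)
    have e : rsum [((0 : ℝ), (8 : ℝ)), (9, 28)] = 27 := by norm_num [rsum]
    rw [e] at h
    exact h.2.trans (measure_mono inter_subset_left)
  calc volume (J w5 - J w5) ≤ ENNReal.ofReal 26 := hD
    _ < ENNReal.ofReal 27 := by rw [ENNReal.ofReal_lt_ofReal_iff] <;> norm_num
    _ ≤ _ := hS

/-- the region: all the forms in the list `K` are positive -/
def InRegion (v : Fin (2 * 5) → ℝ) : Prop := ∀ k ∈ K, 0 < ev k (dl v)

theorem w5_inRegion : InRegion w5 := by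
  intro k hk
  have key : ∀ k ∈ K, 1 ≤ (List.zipWith (fun a b => a * b) k [1, 1, 2, 5, 1, 1, 2, 2, 0]).sum := by
    decide
  have hlen : ∀ (k : Form) (l : List ℤ),
      ev k (l.map (fun a : ℤ => (a : ℝ))) = ((List.zipWith (fun a b => a * b) k l).sum : ℤ) := by
    intro k
    induction k with
    | nil => intro l; simp [ev]
    | cons a k ih =>
      intro l
      cases l with
      | nil => simp [ev]
      | cons b l => simp only [List.map_cons, ev, ih l, List.zipWith_cons_cons, List.sum_cons]; push_cast; ring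
  have hdl : dl w5 = ([1, 1, 2, 5, 1, 1, 2, 2, 0] : List ℤ).map (fun a : ℤ => (a : ℝ)) := by
    simp [dl, w5]; norm_num
  rw [hdl, hlen]
  have := key k hk
  exact_mod_cast this

theorem region_of_nonneg {v : Fin (2 * 5) → ℝ} (hv : v ∈ P 5) (hm : IsMSTD v)
    (h : ∀ k ∈ K, 0 ≤ ev k (dl v)) : InRegion v :=
  checkFacets_sound (dl_nonneg hv) K h K certs facets_ok (gap_pos hm)

theorem path_inRegion (γ : unitInterval → (Fin (2 * 5) → ℝ)) (hγ : IsMSTDPath 5 γ)
    (h0 : InRegion (γ 0)) (t : unitInterval) : InRegion (γ t) := by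
  obtain ⟨hc, hm⟩ := hγ
  have hcont : ∀ k : Form, Continuous (fun t => ev k (dl (γ t))) :=
    fun k => (continuous_ev_dl k).comp hc
  have hset : {t | InRegion (γ t)} = ⋂ k ∈ K.toFinset, {t | 0 < ev k (dl (γ t))} := by
    ext t; simp [InRegion]
  have hset' : {t | InRegion (γ t)} = ⋂ k ∈ K.toFinset, {t | 0 ≤ ev k (dl (γ t))} := by
    ext t
    simp only [mem_ofPred_eq, mem_iInter, List.mem_toFinset]
    constructor
    · intro h k hk; exact (h k hk).le
    · intro h; exact region_of_nonneg (hm t).1 (hm t).2 h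
  have hopen : IsOpen {t | InRegion (γ t)} := by
    rw [hset]
    exact isOpen_biInter_finset (fun k _ => isOpen_lt continuous_const (hcont k))
  have hclosed : IsClosed {t | InRegion (γ t)} := by
    rw [hset']
    exact isClosed_biInter (fun k _ => isClosed_le continuous_const (hcont k))
  have huniv := IsClopen.eq_univ ⟨hclosed, hopen⟩ ⟨0, h0⟩
  have : t ∈ {t | InRegion (γ t)} := by rw [huniv]; trivial
  exact this

theorem not_inRegion_cleave (v : Fin (2 * 4) → ℝ) (i : Fin 4) (p : ℝ) :
    ¬ InRegion (cleave v i p) := by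
  intro h
  fin_cases i
  · have := h [0, 1, 0, 0, 0, 0, 0, 0, 0] (by decide)
    simp [ev, dl, cleave] at this
  · have := h [0, 0, 0, 1, 0, 0, 0, 0, 0] (by decide)
    simp [ev, dl, cleave] at this
  · have := h [0, 0, 0, 0, 0, 1, 0, 0, 0] (by decide)
    simp [ev, dl, cleave] at this
  · have := h [0, 0, 0, 0, 0, 0, 0, 1, 0] (by decide)
    simp [ev, dl, cleave] at this

/-- **The answer to Q1 is no.**  For `n = 4` the space `P_n` contains MSTD points, and
`P_{n+1}` contains an MSTD point `w` such that no MSTD path in `P_{n+1}` joins `w` to a cleaved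
image of an MSTD point of `P_n`. -/
theorem result :
    ∃ n : ℕ, 1 ≤ n ∧ (∃ u ∈ P n, IsMSTD u) ∧
      ∃ w ∈ P (n + 1), IsMSTD w ∧
        ∀ v', IsCleavedImage n v' →
          ¬ ∃ γ : unitInterval → (Fin (2 * (n + 1)) → ℝ),
            IsMSTDPath (n + 1) γ ∧ γ 0 = w ∧ γ 1 = v' := by
  refine ⟨4, by norm_num, ⟨u4, u4_mem, u4_mstd⟩, w5, w5_mem, w5_mstd, ?_⟩
  rintro v' ⟨v, hv, hvm, i, p, h1, h2, rfl⟩ ⟨γ, hγ, h0, h1'⟩
  have := path_inRegion γ hγ (by rw [h0]; exact w5_inRegion) 1
  rw [h1'] at this
  exact not_inRegion_cleave v i p this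

end Pool.Agent.Results.MP_9a6c6e_co.IsolatedMSTDComponent
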